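import Mathlib
import Pool.Agent.Helper80.LinfMain

/-!
# Property (B₂) fails for some pair of `L^∞` spaces
-/

namespace Pool.Agent.Results.MP_80693f_an.PropertyB2Fails

open MeasureTheory Filter Topology
open scoped ENNReal

/-- `T` is `ε`-isometric: `(1 - ε)‖x‖ ≤ ‖T x‖ ≤ (1 + ε)‖x‖` for all `x`. For `ε = 0` this says
that `T` is isometric (not necessarily surjective). -/
def IsEpsIsometric {E F : Type} [NormedAddCommGroup E] [NormedSpace ℝ E] [NormedAddCommGroup F]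
    [NormedSpace ℝ F] (ε : ℝ) (T : E →L[ℝ] F) : Prop :=
  ∀ x : E, (1 - ε) * ‖x‖ ≤ ‖T x‖ ∧ ‖T x‖ ≤ (1 + ε) * ‖x‖

/-- `T` is positive: `T x ≥ 0` whenever `x ≥ 0`. -/
def IsPositive {E F : Type} [NormedAddCommGroup E] [NormedSpace ℝ E] [NormedAddCommGroup F]
    [NormedSpace ℝ F] [LE E] [LE F] (T : E →L[ℝ] F) : Prop :=
  ∀ x : E, 0 ≤ x → 0 ≤ T x

/-- Property (B₂) for `B(E, F)`: there is a function `δ : (0, 1) → [0, ∞)` with `δ ε → 0` as
`ε → 0` such that for every `ε` in `(0, 1)` and every positive `ε`-isometric bounded operator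
`T : E → F` there is a positive isometric bounded operator `V : E → F` with `‖T - V‖ ≤ δ ε`. -/
def PropertyB2 (E F : Type) [NormedAddCommGroup E] [NormedSpace ℝ E] [NormedAddCommGroup F]
    [NormedSpace ℝ F] [LE E] [LE F] : Prop :=
  ∃ δ : ℝ → ℝ, (∀ ε : ℝ, 0 < ε → ε < 1 → 0 ≤ δ ε) ∧ Tendsto δ (𝓝[>] 0) (𝓝 0) ∧
    ∀ ε : ℝ, 0 < ε → ε < 1 → ∀ T : E →L[ℝ] F, IsPositive T → IsEpsIsometric ε T →
      ∃ V : E →L[ℝ] F, IsPositive V ∧ IsEpsIsometric 0 V ∧ ‖T - V‖ ≤ δ ε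

/-- Property (B₂) fails for `B(E, F)`, also in the negated form: there are `η > 0`, numbers
`ε n ∈ (0, 1)` with `ε n → 0` and positive `ε n`-isometric operators `T n` such that
`‖T n - V‖ ≥ η` for every positive isometric operator `V`. -/
def FailsB2 (E F : Type) [NormedAddCommGroup E] [NormedSpace ℝ E] [NormedAddCommGroup F]
    [NormedSpace ℝ F] [LE E] [LE F] : Prop :=
  ¬ PropertyB2 E F ∧
    ∃ η : ℝ, 0 < η ∧ ∃ ε : ℕ → ℝ, (∀ n, 0 < ε n ∧ ε n < 1) ∧ Tendsto ε atTop (𝓝 0) ∧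
      ∃ T : ℕ → (E →L[ℝ] F), ∀ n, IsPositive (T n) ∧ IsEpsIsometric (ε n) (T n) ∧
        ∀ V : E →L[ℝ] F, IsPositive V → IsEpsIsometric 0 V → η ≤ ‖T n - V‖

/-- **Negative answer to Q2.** There are measure spaces `(Ω₁, μ₁)`, `(Ω₂, μ₂)` for which property
(B₂) fails for `B(L^∞(Ω₁), L^∞(Ω₂))` (with the almost everywhere pointwise orders). -/
theorem result : ∃ (Ω₁ Ω₂ : Type) (_ : MeasurableSpace Ω₁) (_ : MeasurableSpace Ω₂)
    (μ₁ : Measure Ω₁) (μ₂ : Measure Ω₂), FailsB2 (Lp ℝ ∞ μ₁) (Lp ℝ ∞ μ₂) := by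
  refine ⟨Helper80.LInf.Om1, Helper80.LInf.Om2, inferInstance, inferInstance, Measure.count,
    Measure.count, ?_⟩
  -- `ε n = 2 / (n + 3) → 0`
  have hlim : Tendsto (fun n : ℕ => 2 / ((n : ℝ) + 3)) atTop (𝓝 0) :=
    Tendsto.div_atTop tendsto_const_nhds
      (tendsto_atTop_add_const_right _ _ tendsto_natCast_atTop_atTop)
  have hpos : ∀ n : ℕ, 0 < 2 / ((n : ℝ) + 3) := fun n => by positivity
  have hlt : ∀ n : ℕ, 2 / ((n : ℝ) + 3) < 1 := by
    intro n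
    have hn0 : (0 : ℝ) ≤ n := Nat.cast_nonneg n
    rw [div_lt_one (by positivity)]
    linarith
  have hP : ∀ n : ℕ, IsPositive (Helper80.LInf.T (n + 3)) := fun n x hx =>
    Helper80.LInf.T_nonneg (n + 3) x hx
  have hT : ∀ n : ℕ, IsEpsIsometric (2 / ((n : ℝ) + 3)) (Helper80.LInf.T (n + 3)) := by
    intro n x
    constructor
    · have := Helper80.LInf.le_norm_T (n + 3) (by omega) x
      push_cast at this
      exact this
    · have h1 := Helper80.LInf.norm_T_le (n + 3) x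
      have h2 : 0 ≤ 2 / ((n : ℝ) + 3) * ‖x‖ := by positivity
      linarith
  have hfar : ∀ (n : ℕ) (V : Helper80.LInf.E1 →L[ℝ] Helper80.LInf.E2), IsEpsIsometric 0 V →
      1 / 2 ≤ ‖Helper80.LInf.T (n + 3) - V‖ := fun n V hV =>
    Helper80.LInf.not_close (n + 3) (by omega) V fun F =>
      le_antisymm (by have := (hV F).2; linarith) (by have := (hV F).1; linarith)
  refine ⟨?_, 1 / 2, by norm_num, fun n => 2 / ((n : ℝ) + 3), fun n => ⟨hpos n, hlt n⟩, hlim,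
    fun n => Helper80.LInf.T (n + 3), fun n => ⟨hP n, hT n, fun V _ => hfar n V⟩⟩
  rintro ⟨δ, -, hδ, h⟩
  have hlim2 : Tendsto (fun n : ℕ => 2 / ((n : ℝ) + 3)) atTop (𝓝[>] 0) :=
    tendsto_nhdsWithin_iff.2 ⟨hlim, Eventually.of_forall fun n => hpos n⟩
  obtain ⟨n, hn⟩ := ((hδ.comp hlim2).eventually
    (gt_mem_nhds (show (0 : ℝ) < 1 / 2 by norm_num))).exists
  obtain ⟨V, -, hV, hd⟩ := h _ (hpos n) (hlt n) _ (hP n) (hT n)
  exact absurd ((hfar n V hV).trans hd) (not_le.2 hn)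

end Pool.Agent.Results.MP_80693f_an.PropertyB2Fails
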